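import Pool.Agent.Y40.WC.Conv

/-!
# Lattice width times `ℚ`-codegree is at most `n + 1`, with equality exactly for `w Δ_n`

Let `P` be an `n`-dimensional lattice polytope and `w` its lattice width. Then `μ(P) w ≤ n + 1`,
and equality holds if and only if `P` is lattice equivalent to `w Δ_n`. In particular `μ(P) > (n+1)/2`
implies lattice width one (this is the question, for all `n`), and `μ(P) = (n+1)/2` implies lattice
width one or `P ≅ 2 Δ_n`.

Proof. Over every facet the polytope has height at least `w`, so Helly's theorem gives a point of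
`P^(w/(n+1))`. If no point has a larger distance from all the facets, a second application of
Helly's theorem (with weights shifted away from one facet) gives `n + 1` facets and vertices `v_j`
with `d_i(v_j) = w δ_ij`, so that `P` is a simplex. If the matrix `A` of `n` of its facet normals is
invertible modulo `w`, its determinant, which divides `w ^ n`, is `1` or `-1` and `P ≅ w Δ_n`.
Otherwise a row vector `m` with entries in `{0, …, w - 1}`, not all zero, satisfies
`m A ≡ 0 (mod w)`, and the functional `m A / w` shows that the lattice width is less than `w`.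
-/

set_option autoImplicit false

open Set Module

namespace Pool.Agent.Results.MP_f2eb3d_co.WidthTimesCodegree

open Pool.Agent.Results.MP_f2eb3d_co.WidthOne Pool.Agent.Y40.WC

/-- Let `n ≥ 1` and let `P` be an `n`-dimensional lattice polytope. Its lattice width `w` exists and
is positive, `μ(P) w ≤ n + 1`, with equality if and only if `P` is lattice equivalent to `w Δ_n`. If
`μ(P) > (n+1)/2` then `P` has lattice width one; if `μ(P) ≥ (n+1)/2` then `P` has lattice width one
or is lattice equivalent to `2 Δ_n`. -/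
theorem result (n : ℕ) (hn : 1 ≤ n) (P : Set (Fin n → ℝ)) (hP : IsLatticePolytope P) :
    ∃ w : ℕ, 1 ≤ w ∧ IsWidth P w ∧ qcodeg P * w ≤ n + 1 ∧
      (qcodeg P * w = n + 1 ↔ IsDilatedSimplex P w) ∧
      (((n : ℝ) + 1) / 2 < qcodeg P → HasWidthOne P) ∧
      (((n : ℝ) + 1) / 2 ≤ qcodeg P → HasWidthOne P ∨ IsDilatedSimplex P 2) := by
  obtain ⟨⟨V, hVfin, hVint, hPV⟩, hint⟩ := hP
  have hVne : V.Nonempty := by
    rcases V.eq_empty_or_nonempty with rfl | h
    · rw [convexHull_empty] at hPV
      rw [hPV, interior_empty] at hint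
      exact absurd hint Set.not_nonempty_empty
    · exact h
  have hex : ∃ K, IsLength P K := by
    obtain ⟨K, hK, -⟩ := length_of hVfin hVne hVint hPV (fun _ => 1) (by
      intro h
      have := congrFun h ⟨0, hn⟩
      simp at this)
    exact ⟨K, hK⟩
  classical
  have hw : IsWidth P (Nat.find hex) := ⟨Nat.find_spec hex, fun K hK => Nat.find_min' hex hK⟩
  obtain ⟨w, hw⟩ : ∃ w, IsWidth P w := ⟨_, hw⟩
  have hw1 : 1 ≤ w := length_pos hint hw.1
  have hw0 : (0 : ℝ) < w := by exact_mod_cast hw1
  have hn1 : (0 : ℝ) < (n : ℝ) + 1 := by positivity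
  have hmin : ∀ K, IsLength P K → w ≤ K := fun K hK => hw.2 hK
  have hheight := facet_height hVfin hVne hVint hPV w hmin
  have hq0 : 0 ≤ qcodeg P := by
    rw [qcodeg]
    apply inv_nonneg.2
    exact Real.sSup_nonneg fun s hs => hs.1.le
  have hup : ∀ s : ℝ, 0 < s → (adjoint P s).Nonempty → qcodeg P * s ≤ 1 := by
    intro s hs hne
    have hmem : s ∈ {s : ℝ | 0 < s ∧ (adjoint P s).Nonempty} := ⟨hs, hne⟩
    rw [qcodeg]
    by_cases hbdd : BddAbove {s : ℝ | 0 < s ∧ (adjoint P s).Nonempty}
    · have h1 := le_csSup hbdd hmem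
      have h2 : (sSup {s : ℝ | 0 < s ∧ (adjoint P s).Nonempty})⁻¹ ≤ s⁻¹ := inv_anti₀ hs h1
      calc _ ≤ s⁻¹ * s := mul_le_mul_of_nonneg_right h2 hs.le
        _ = 1 := inv_mul_cancel₀ hs.ne'
    · rw [Real.sSup_of_not_bddAbove hbdd, inv_zero, zero_mul]
      exact zero_le_one
  have hmain : qcodeg P * w ≤ n + 1 ∧ (qcodeg P * w = n + 1 → IsDilatedSimplex P w) := by
    rcases dichotomy hn hVfin hVint hPV w hw1 hheight with ⟨s, hs, hne⟩ | ⟨a, b, v, hfac, hv, hd⟩
    · have hs0 : 0 < s := lt_trans (by positivity) hs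
      have h1 := hup s hs0 hne
      have h2 : (w : ℝ) < s * (n + 1) := (div_lt_iff₀ hn1).1 hs
      have h3 : qcodeg P * w < n + 1 := by
        rcases hq0.eq_or_lt with h | h
        · rw [← h, zero_mul]; exact hn1
        · calc qcodeg P * w < qcodeg P * (s * (n + 1)) := mul_lt_mul_of_pos_left h2 h
            _ = qcodeg P * s * (n + 1) := by ring
            _ ≤ 1 * (n + 1) := mul_le_mul_of_nonneg_right h1 hn1.le
            _ = n + 1 := one_mul _
      exact ⟨h3.le, fun h => absurd h h3.ne⟩
    · refine ⟨?_, fun _ => ?_⟩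
      · have h1 := hup _ (by positivity) (adjoint_nonempty_of hVfin hPV w hheight)
        rw [mul_div_assoc', div_le_one hn1] at h1
        exact h1
      · rcases simplex_case hVfin hVint hPV w hw1 a b v (fun i => (hfac i).2.1) hv hd with h | h
        · exact h
        · obtain ⟨K, hK, hK'⟩ := h
          exact absurd (hmin K hK') (by omega)
  have hone : w = 1 → HasWidthOne P := by
    intro h1
    obtain ⟨l, hl, M, m, hM, hm, hMm⟩ := hw.1
    exact ⟨l, hl, M, m, hM, hm, by rw [hMm, h1, Nat.cast_one]⟩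
  have hconv : IsDilatedSimplex P w → qcodeg P * w = n + 1 := by
    intro h
    have hg : IsGreatest {s : ℝ | 0 < s ∧ (adjoint P s).Nonempty} ((w : ℝ) / (n + 1)) := by
      refine ⟨⟨by positivity, adjoint_nonempty_of hVfin hPV w hheight⟩, fun s hs => ?_⟩
      rw [le_div_iff₀ hn1]
      exact dilated_bound hn hw1 h hs.2
    rw [qcodeg, hg.csSup_eq, inv_div, div_mul_cancel₀ _ hw0.ne']
  refine ⟨w, hw1, hw, hmain.1, ⟨hmain.2, hconv⟩, fun hμ => ?_, fun hμ => ?_⟩
  · apply hone
    have h1 : ((n : ℝ) + 1) / 2 * w < qcodeg P * w := mul_lt_mul_of_pos_right hμ hw0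
    have h2 : ((n : ℝ) + 1) * w < (n + 1) * 2 := by linarith [hmain.1]
    have h3 : (w : ℝ) < 2 := lt_of_mul_lt_mul_left h2 hn1.le
    have h4 : w < 2 := by exact_mod_cast h3
    omega
  · have h1 : ((n : ℝ) + 1) / 2 * w ≤ qcodeg P * w := mul_le_mul_of_nonneg_right hμ hw0.le
    have h2 : ((n : ℝ) + 1) * w ≤ (n + 1) * 2 := by linarith [hmain.1]
    have h3 : (w : ℝ) ≤ 2 := le_of_mul_le_mul_left h2 hn1
    have h4 : w ≤ 2 := by exact_mod_cast h3
    rcases (by omega : w = 1 ∨ w = 2) with h5 | h5
    · exact Or.inl (hone h5)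
    · right
      subst h5
      apply hmain.2
      apply le_antisymm hmain.1
      push_cast at h1 ⊢
      linarith

end Pool.Agent.Results.MP_f2eb3d_co.WidthTimesCodegree
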